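import Pool.Agent.helper43.MinSub.Bridge
import Pool.Agent.helper43.MinSub.Ex3

/-!
# MP_899162_gt: the uniform constant in the definition of `m`-convexity is needed

All definitions are in `Pool/Agent/helper43/MinSub/Defs.lean`.
-/

open Bundle Manifold MeasureTheory Set Filter Topology
open scoped ContDiff ENNReal

namespace Pool.Agent.Results.MP_899162_gt.DegenerateConvexity

open Pool.Agent.helper43.MinSub

/-- There are a bounded open set `D ⊆ ℝ⁵`, a connected open set `M ⊆ ℝ³` and a minimal immersion
`φ : M → ℝ⁵` with image in `D` (the restriction to `M` of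
`(s, θ, v) ↦ (e^s cos θ, e^s sin θ, e^{-θ} cos s, e^{-θ} sin s, v)`), such that
* some `C²` function on `ℝ⁵` is negative on `D`, zero on `∂D`, and at every point of `D` the
  sum of the three smallest eigenvalues of its Hessian is positive,
* the limit set of `φ` does not meet `D`, i.e. `φ : M → D` is proper,
* the Laplacian of `M`, with the induced metric, does not have discrete spectrum. -/
theorem result :
    ∃ (D : Set (EuclideanSpace ℝ (Fin 5))) (M : TopologicalSpace.Opens (EuclideanSpace ℝ (Fin 3)))
      (φ : M → EuclideanSpace ℝ (Fin 5)) (μ : Measure M),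
      IsNondiscreteExample (EuclideanSpace.basisFun (Fin 3) ℝ) (EuclideanSpace.basisFun (Fin 5) ℝ)
        D M φ μ := by
  obtain ⟨D, M, φ, μ, h1, h2, h3, h4, h5, h6, h7, h8, h9, h10⟩ :=
    Pool.Agent.helper43.MS.Gen.example_proper
  exact ⟨D, M, φ, μ, h1, h2, (isPointwiseConvex_iff D).mpr h3, h4, (isImm_iff φ).mpr h5,
    (isMinimal_iff φ).mpr h6, (isRiemVolume_iff φ μ).mpr h7, h8, h9,
    fun h => h10 (hasDiscreteSpectrum_to h)⟩

end Pool.Agent.Results.MP_899162_gt.DegenerateConvexity
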