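import Pool.Agent.helper43.MinSub.Bridge
import Pool.Agent.helper43.MS.Main

/-!
# MP_899162_gt: minimal submanifolds with small limit set have discrete spectrum

All definitions are in `Pool/Agent/helper43/MinSub/Defs.lean`. They are stated for arbitrary model
spaces `G` of `M` and `F` of `N` with given orthonormal bases `e` and `b`; the theorem is about
`G = ℝ^m` and `F = ℝ^n` with their standard bases.
-/

open Bundle Manifold MeasureTheory Set Filter Topology
open scoped ContDiff ENNReal

namespace Pool.Agent.Results.MP_899162_gt.DiscreteSpectrum

open Pool.Agent.helper43.MinSub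

universe u v

/-- Let `m ≥ 3`, let `N` be a Riemannian manifold of dimension `n` (no completeness or curvature
assumption is needed), `D ⊆ N` an open set with compact closure which is uniformly `m`-convex, and
`φ : M → N` a minimal immersion of an `m`-manifold, `M` with the induced metric, such that
`φ(M) ⊆ D`. If the part in `D` of the limit set of `φ` has `m`-dimensional Hausdorff measure zero,
then the Laplacian of `M` has discrete spectrum. (The definition `SmallLimitSetDiscrete` spells this
out, with `F = EuclideanSpace ℝ (Fin n)` and `G = EuclideanSpace ℝ (Fin m)`.) -/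
theorem result (m n : ℕ) (hm : 3 ≤ m) :
    SmallLimitSetDiscrete.{u, v} (EuclideanSpace.basisFun (Fin m) ℝ)
      (EuclideanSpace.basisFun (Fin n) ℝ) := by
  intro N _ _ _ _ _ _ _ _ M _ _ _ _ _ _ _ φ μ D hD hDc hconv hφ hmin hμ hφD hlim
  exact hasDiscreteSpectrum_of (Pool.Agent.helper43.MS.main hm ((isImm_iff φ).mp hφ)
    ((isMinimal_iff φ).mp hmin) ((isRiemVolume_iff φ μ).mp hμ) hD hDc
    ((isUniformlyConvex_iff D).mp hconv) hφD hlim)

end Pool.Agent.Results.MP_899162_gt.DiscreteSpectrum
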